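import Pool.Agent.Y821.DD.Grid

/-!
# Distinct distances in the grid: all constants below `(log 2) / 2`

For every `c < (log 2) / 2` one has `k(n) ≤ n ^ (1 - c / log log n)` for all large `n`. More
generally a subset of the `n × n` grid in which every distance occurs at most `L` times has at most
`√L n ^ (1 - c / log log n)` points, uniformly in `L ≥ 1`.

Proof. Let `P` be a set of primes that are `1` modulo `4`, `d` their product. There are `2 ^ |P|`
sublattices of index `d` given by the choice of a square root of `-1` modulo every `p ∈ P`; on each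
of them the squared length is divisible by `d`. Cauchy-Schwarz on the cosets of each of them gives
`2 ^ |P| |S|² ≤ d 2 ^ |P| |S| + 4 L n² ∏ (1 + 1/p)` (the counting inequality of the file
`Pool.Agent.H264R2.Pigeon`). By the prime number theorem for the residue class `1` modulo `4` one
can take `|P| ≥ (1 - ε) log n / log log n` large primes with `d ≤ n ^ (1 - ε')`.
-/

set_option autoImplicit false

namespace Pool.Agent.Results.MP_67d718_co.HalfLogTwo

open Finset Pool.Agent.H264R2.Pigeon

/-- Euclidean distance of two lattice points. -/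
noncomputable def eucl (a b : ℤ × ℤ) : ℝ :=
  Real.sqrt (((a.1 : ℝ) - b.1) ^ 2 + ((a.2 : ℝ) - b.2) ^ 2)

/-- The `n × n` grid `{(x, y) : 1 ≤ x ≤ n, 1 ≤ y ≤ n}`. -/
noncomputable def grid (n : ℕ) : Finset (ℤ × ℤ) := Finset.Icc (1 : ℤ) n ×ˢ Finset.Icc (1 : ℤ) n

/-- The distances between the unordered pairs of distinct points of `S` are pairwise different. -/
def DistinctDistances (S : Finset (ℤ × ℤ)) : Prop :=
  ∀ a ∈ S, ∀ b ∈ S, ∀ c ∈ S, ∀ e ∈ S, a ≠ b → c ≠ e → eucl a b = eucl c e →
    (a = c ∧ b = e) ∨ (a = e ∧ b = c)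

open Classical in
/-- The largest size of a subset of the `n × n` grid with distinct distances. -/
noncomputable def kmax (n : ℕ) : ℕ :=
  ((grid n).powerset.filter DistinctDistances).sup Finset.card

open Classical in
/-- Every positive distance occurs for at most `L` unordered pairs, that is for at most `2 L`
ordered pairs, of points of `S`. -/
def AtMost (L : ℕ) (S : Finset (ℤ × ℤ)) : Prop :=
  ∀ t : ℝ, 0 < t → ((S ×ˢ S).filter (fun x => eucl x.1 x.2 = t)).card ≤ 2 * L

lemma eucl_nd (x : (ℤ × ℤ) × (ℤ × ℤ)) : eucl x.1 x.2 = √((nd x : ℕ) : ℝ) := by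
  have h1 := nd_cast x
  have h2 : ((nd x : ℕ) : ℝ) = ((x.1.1 : ℝ) - x.2.1) ^ 2 + ((x.1.2 : ℝ) - x.2.2) ^ 2 := by
    have h3 : (((nd x : ℕ) : ℤ) : ℝ) = ((N2 (x.1 - x.2) : ℤ) : ℝ) := by rw [h1]
    unfold N2 at h3
    simp only [Prod.fst_sub, Prod.snd_sub] at h3
    push_cast at h3
    exact h3
  rw [h2]
  rfl

lemma atMost_nd {L : ℕ} {S : Finset (ℤ × ℤ)} (hS : AtMost L S) (m : ℕ) (hm : 0 < m) :
    ((S ×ˢ S).filter (fun x => nd x = m)).card ≤ 2 * L := by
  classical
  have hm' : (0 : ℝ) < √(m : ℝ) := Real.sqrt_pos.2 (by exact_mod_cast hm)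
  refine le_trans (card_le_card ?_) (hS _ hm')
  intro x hx
  rw [mem_filter] at hx ⊢
  exact ⟨hx.1, by rw [eucl_nd, hx.2]⟩

lemma distinct_atMost {S : Finset (ℤ × ℤ)} (hS : DistinctDistances S) : AtMost 1 S := by
  classical
  intro t ht
  rcases Finset.eq_empty_or_nonempty ((S ×ˢ S).filter (fun x => eucl x.1 x.2 = t)) with h | ⟨y, hy⟩
  · rw [h]; simp
  · have hsub : (S ×ˢ S).filter (fun x => eucl x.1 x.2 = t) ⊆ {y, (y.2, y.1)} := by
      intro x hx
      rw [mem_filter, mem_product] at hx hy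
      have hne : ∀ z : (ℤ × ℤ) × (ℤ × ℤ), eucl z.1 z.2 = t → z.1 ≠ z.2 := by
        intro z hz h
        rw [h] at hz
        unfold eucl at hz
        simp at hz
        linarith
      have := hS x.1 hx.1.1 x.2 hx.1.2 y.1 hy.1.1 y.2 hy.1.2 (hne x hx.2) (hne y hy.2)
        (hx.2.trans hy.2.symm)
      rw [mem_insert, mem_singleton]
      rcases this with ⟨h1, h2⟩ | ⟨h1, h2⟩
      · left; exact Prod.ext h1 h2
      · right; exact Prod.ext h1 h2
    exact (card_le_card hsub).trans (Finset.card_le_two.trans (by norm_num))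

/-- For every `c < (log 2) / 2`: for all large `n` the largest subset of the `n × n` grid with
distinct distances has at most `n ^ (1 - c / log log n)` points, and every subset in which each
distance occurs at most `L ≥ 1` times has at most `√L n ^ (1 - c / log log n)` points. -/
theorem result : ∀ c : ℝ, c < Real.log 2 / 2 → ∃ n₀ : ℕ, ∀ n : ℕ, n₀ ≤ n →
    (kmax n : ℝ) ≤ (n : ℝ) ^ (1 - c / Real.log (Real.log n)) ∧
    ∀ L : ℕ, 1 ≤ L → ∀ S : Finset (ℤ × ℤ), S ⊆ grid n → AtMost L S →
      (S.card : ℝ) ≤ √(L : ℝ) * (n : ℝ) ^ (1 - c / Real.log (Real.log n)) := by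
  classical
  intro c hc
  obtain ⟨n₀, h⟩ := Pool.Agent.Y821.DD.distinct c hc
  refine ⟨n₀, fun n hn => ?_⟩
  have key : ∀ L : ℕ, 1 ≤ L → ∀ S : Finset (ℤ × ℤ), S ⊆ grid n → AtMost L S →
      (S.card : ℝ) ≤ √(L : ℝ) * (n : ℝ) ^ (1 - c / Real.log (Real.log n)) := by
    intro L hL S hS hA
    refine h n hn S ?_ L hL ?_
    · intro a ha
      have := hS ha
      rw [grid, mem_product, mem_Icc, mem_Icc] at this
      exact this
    · intro m hm
      exact atMost_nd hA m hm
  refine ⟨?_, key⟩
  have hne : ((grid n).powerset.filter DistinctDistances).Nonempty := by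
    refine ⟨∅, ?_⟩
    rw [mem_filter, mem_powerset]
    exact ⟨Finset.empty_subset _, fun a ha => absurd ha (Finset.notMem_empty a)⟩
  obtain ⟨S, hS, hcard⟩ := Finset.exists_mem_eq_sup _ hne Finset.card
  have hk : kmax n = S.card := by
    unfold kmax
    convert hcard
  rw [hk]
  rw [mem_filter, mem_powerset] at hS
  have := key 1 le_rfl S hS.1 (distinct_atMost hS.2)
  simpa using this

end Pool.Agent.Results.MP_67d718_co.HalfLogTwo
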